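import Mathlib

set_option autoImplicit false

/-!
Inequalities for norms of nonnegative combinations of pairwise non-obtuse vectors.
-/

namespace Pool.Agent.X235.Soc

open scoped RealInnerProductSpace

section vec

variable {n : ℕ} {E : Type} [NormedAddCommGroup E] [InnerProductSpace ℝ E]

/-- The combination of the vectors `a` with multiplicities `x`. -/
def V (a : Fin n → E) (x : Fin n → ℕ) : E := ∑ j, (x j : ℝ) • a j

theorem V_add (a : Fin n → E) (x y : Fin n → ℕ) : V a (x + y) = V a x + V a y := by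
  unfold V
  rw [← Finset.sum_add_distrib]
  refine Finset.sum_congr rfl fun j _ => ?_
  rw [Pi.add_apply, Nat.cast_add, add_smul]

theorem V_single (a : Fin n → E) (i : Fin n) : V a (Pi.single i 1) = a i := by
  unfold V
  rw [Finset.sum_eq_single i]
  · simp
  · intro j _ hj; simp [hj]
  · intro h; exact absurd (Finset.mem_univ _) h

variable {a : Fin n → E} (ha : ∀ j k, 0 ≤ ⟪a j, a k⟫)

include ha

theorem inner_V_nonneg (x : Fin n → ℕ) (j : Fin n) : 0 ≤ ⟪V a x, a j⟫ := by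
  unfold V
  rw [sum_inner]
  refine Finset.sum_nonneg fun k _ => ?_
  rw [real_inner_smul_left]
  exact mul_nonneg (Nat.cast_nonneg _) (ha _ _)

theorem inner_V_V (x y : Fin n → ℕ) : 0 ≤ ⟪V a x, V a y⟫ := by
  conv_rhs => rw [V]
  rw [V, inner_sum]
  refine Finset.sum_nonneg fun k _ => ?_
  rw [real_inner_smul_right]
  exact mul_nonneg (Nat.cast_nonneg _) (inner_V_nonneg ha _ _)

/-- If `x j ≥ 1` then `V a x` has inner product at least `‖a j‖²` with `a j`. -/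
theorem le_inner (x : Fin n → ℕ) (j : Fin n) (h : 1 ≤ x j) : ‖a j‖ ^ 2 ≤ ⟪V a x, a j⟫ := by
  have h1 : x = (x - Pi.single j 1) + Pi.single j 1 := by
    funext k
    by_cases hk : k = j
    · subst hk; simp; omega
    · simp [hk]
  rw [h1, V_add, inner_add_left, V_single, real_inner_self_eq_norm_sq]
  have := inner_V_nonneg ha (x - Pi.single j 1) j
  linarith

theorem norm_le (x y : Fin n → ℕ) : ‖V a x‖ ≤ ‖V a (x + y)‖ := by
  have h1 : ‖V a x‖ ^ 2 ≤ ‖V a (x + y)‖ ^ 2 := by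
    rw [V_add, norm_add_sq_real]
    have := inner_V_V ha x y
    nlinarith [norm_nonneg (V a y)]
  exact abs_le_of_sq_le_sq' h1 (norm_nonneg _) |>.2

theorem norm_le_of_le {x y : Fin n → ℕ} (h : x ≤ y) : ‖V a x‖ ≤ ‖V a y‖ := by
  obtain ⟨z, rfl⟩ := exists_add_of_le h
  exact norm_le ha x z

theorem norm_a_le (x : Fin n → ℕ) (j : Fin n) (h : 1 ≤ x j) : ‖a j‖ ≤ ‖V a x‖ := by
  rw [← V_single a j]
  apply norm_le_of_le ha
  intro k
  by_cases hk : k = j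
  · subst hk; simpa using h
  · simp [hk]

/-- Inequality (B). -/
theorem ineqB (w z : Fin n → ℕ) :
    ∑ j, (z j : ℝ) * (‖V a (w + z) + a j‖ - ‖V a (w + z)‖) ≤
      3 * (‖V a (w + z)‖ - ‖V a w‖) := by
  rcases (norm_nonneg (V a (w + z))).eq_or_lt with h0 | h0
  · have h1 : ‖V a w‖ = 0 := le_antisymm (by rw [h0]; exact norm_le ha w z) (norm_nonneg _)
    have h2 : V a (w + z) = 0 := norm_eq_zero.1 h0.symm
    rw [h1, h2]
    simp only [norm_zero, sub_zero, zero_add, mul_zero]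
    refine Finset.sum_nonpos fun j _ => ?_
    rcases Nat.eq_zero_or_pos (z j) with h3 | h3
    · simp [h3]
    · have h4 : ‖a j‖ ≤ ‖V a (w + z)‖ := norm_a_le ha _ _ (by rw [Pi.add_apply]; omega)
      rw [h2, norm_zero] at h4
      have h5 : ‖a j‖ = 0 := le_antisymm h4 (norm_nonneg _)
      simp [h5]
  · set Y := V a (w + z) with hY
    set Z := V a z with hZ
    set W := V a w with hW
    have hYZ : Y = W + Z := V_add _ _ _
    have e1 : ∀ j, 2 * ‖Y‖ * ((z j : ℝ) * (‖Y + a j‖ - ‖Y‖)) ≤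
        2 * ((z j : ℝ) * ⟪Y, a j⟫) + (z j : ℝ) * ⟪Z, a j⟫ := by
      intro j
      have h3 : 2 * ‖Y‖ * (‖Y + a j‖ - ‖Y‖) ≤ 2 * ⟪Y, a j⟫ + ‖a j‖ ^ 2 := by
        have h4 := norm_add_sq_real Y (a j)
        nlinarith [sq_nonneg (‖Y + a j‖ - ‖Y‖)]
      rcases Nat.eq_zero_or_pos (z j) with h5 | h5
      · simp [h5]
      · have h6 := le_inner ha z j h5
        have h7 : (0 : ℝ) ≤ z j := Nat.cast_nonneg _
        rw [← hZ] at h6
        nlinarith [mul_le_mul_of_nonneg_left h3 h7, mul_le_mul_of_nonneg_left h6 h7]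
    have e2 : ∀ U : E, ∑ j, (z j : ℝ) * ⟪U, a j⟫ = ⟪U, Z⟫ := by
      intro U
      rw [hZ, V, inner_sum]
      refine Finset.sum_congr rfl fun j _ => ?_
      rw [real_inner_smul_right]
    have e3 : 2 * ‖Y‖ * ∑ j, (z j : ℝ) * (‖Y + a j‖ - ‖Y‖) ≤ 2 * ⟪Y, Z⟫ + ⟪Z, Z⟫ := by
      rw [Finset.mul_sum]
      refine (Finset.sum_le_sum fun j _ => e1 j).trans ?_
      rw [Finset.sum_add_distrib, ← Finset.mul_sum, e2, e2]
    have e4 : ⟪Y, Z⟫ = ⟪W, Z⟫ + ⟪Z, Z⟫ := by rw [hYZ, inner_add_left]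
    have e5 : 0 ≤ ⟪W, Z⟫ := inner_V_V ha _ _
    have e6 : ‖Y‖ ^ 2 = ‖W‖ ^ 2 + 2 * ⟪W, Z⟫ + ⟪Z, Z⟫ := by
      rw [hYZ, norm_add_sq_real, real_inner_self_eq_norm_sq]
    have e7 : ‖W‖ ≤ ‖Y‖ := norm_le ha _ _
    have e8 : 2 * ‖Y‖ * ∑ j, (z j : ℝ) * (‖Y + a j‖ - ‖Y‖) ≤
        2 * ‖Y‖ * (3 * (‖Y‖ - ‖W‖)) := by
      nlinarith [norm_nonneg W]
    exact le_of_mul_le_mul_left e8 (by linarith)

omit ha in
/-- Inequality (A). -/
theorem ineqA {W ai aj Y : E} {bi bj γ : ℝ} (hij : 0 ≤ ⟪W, ai⟫) (hbi : 0 ≤ bi) (hbj : 0 ≤ bj)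
    (hγ : 0 < γ) (h1 : ‖aj‖ ^ 2 ≤ ⟪W, aj⟫) (h2 : ⟪W, aj⟫ ≤ ⟪Y, aj⟫)
    (h3 : γ = bi + ‖W + ai‖ - ‖W‖) (h4 : γ ≤ bj + ‖W + ai‖ - ‖W + ai - aj‖)
    (h5 : ‖Y‖ ≤ ‖W‖ + γ) (h6 : ‖aj‖ ≤ ‖W + ai‖) :
    γ / 40 ≤ bj + ‖Y + aj‖ - ‖Y‖ := by
  have hYa : ‖Y + aj‖ ^ 2 = ‖Y‖ ^ 2 + 2 * ⟪Y, aj⟫ + ‖aj‖ ^ 2 := norm_add_sq_real _ _
  have hYle : ‖Y‖ ≤ ‖Y + aj‖ := by
    refine (abs_le_of_sq_le_sq' ?_ (norm_nonneg _)).2
    nlinarith [sq_nonneg ‖aj‖]
  by_cases hb : γ / 4 ≤ bj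
  · linarith
  · push Not at hb
    set P := ‖W + ai‖ with hP
    have hq := norm_nonneg (W + ai - aj)
    have k1 : 3 * γ / 4 ≤ P - ‖W + ai - aj‖ := by linarith
    have k2 : ‖W + ai - aj‖ ^ 2 = P ^ 2 - 2 * (⟪W, aj⟫ + ⟪ai, aj⟫) + ‖aj‖ ^ 2 := by
      rw [norm_sub_sq_real, inner_add_left]
    have hP0 : 0 < P := by linarith
    have k3 : 3 * γ / 4 * P ≤ 2 * (⟪W, aj⟫ + ⟪ai, aj⟫) - ‖aj‖ ^ 2 := by
      nlinarith
    have k4 : P ^ 2 = ‖W‖ ^ 2 + 2 * ⟪W, ai⟫ + ‖ai‖ ^ 2 := norm_add_sq_real _ _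
    have hWP : ‖W‖ ≤ P := by
      refine (abs_le_of_sq_le_sq' ?_ (norm_nonneg _)).2
      nlinarith [sq_nonneg ‖ai‖]
    have k5 : ‖ai‖ ^ 2 ≤ 2 * γ * P := by
      nlinarith [norm_nonneg W]
    have k6 : ⟪ai, aj⟫ ≤ ‖ai‖ ^ 2 / 8 + 2 * ‖aj‖ ^ 2 := by
      have := real_inner_le_norm ai aj
      nlinarith [sq_nonneg (‖ai‖ - 4 * ‖aj‖)]
    have k7 : 3 / 20 * (γ * P) ≤ 2 * ⟪Y, aj⟫ + ‖aj‖ ^ 2 := by nlinarith
    have k8 : ‖Y + aj‖ ≤ ‖Y‖ + ‖aj‖ := norm_add_le _ _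
    have k9 : ‖Y + aj‖ + ‖Y‖ ≤ 17 / 3 * P := by
      have : γ ≤ 4 / 3 * P := by linarith
      linarith
    have k10 : 3 / 20 * (γ * P) ≤ (‖Y + aj‖ - ‖Y‖) * (17 / 3 * P) := by
      have : 3 / 20 * (γ * P) ≤ (‖Y + aj‖ - ‖Y‖) * (‖Y + aj‖ + ‖Y‖) := by nlinarith
      exact this.trans (mul_le_mul_of_nonneg_left k9 (by linarith))
    have k11 : 3 / 20 * γ ≤ (‖Y + aj‖ - ‖Y‖) * (17 / 3) := by
      have : (3 / 20 * γ) * P ≤ ((‖Y + aj‖ - ‖Y‖) * (17 / 3)) * P := by linarith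
      exact le_of_mul_le_mul_right this hP0
    linarith

end vec

/-- Vectors with coordinate sum at most `M`. -/
theorem card_small (n : ℕ) (M : ℕ) : ∃ S : Finset (Fin n → ℕ), S.card ≤ (n + 1) ^ M ∧
    ∀ z : Fin n → ℕ, ∑ j, z j ≤ M → z ∈ S := by
  classical
  induction M with
  | zero =>
    refine ⟨{0}, by simp, fun z hz => ?_⟩
    rw [Finset.mem_singleton]
    funext j
    have := Finset.single_le_sum (f := z) (fun _ _ => Nat.zero_le _) (Finset.mem_univ j)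
    simp only [Pi.zero_apply]
    omega
  | succ M ih =>
    obtain ⟨S, h1, h2⟩ := ih
    refine ⟨(S ×ˢ (Finset.univ : Finset (Option (Fin n)))).image
      (fun p => p.1 + p.2.elim 0 (fun i => Pi.single i 1)), ?_, fun z hz => ?_⟩
    · refine Finset.card_image_le.trans ?_
      rw [Finset.card_product, Finset.card_univ, Fintype.card_option, Fintype.card_fin, pow_succ]
      exact Nat.mul_le_mul_right _ h1
    · rw [Finset.mem_image]
      by_cases h : ∑ j, z j ≤ M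
      · exact ⟨(z, none), by simp [h2 z h], by simp⟩
      · have : ∃ i, z i ≠ 0 := by
          by_contra hcon
          push Not at hcon
          apply h
          rw [Finset.sum_eq_zero fun i _ => hcon i]
          exact Nat.zero_le _
        obtain ⟨i, hi⟩ := this
        have hz2 : z = (z - Pi.single i 1) + Pi.single i 1 := by
          funext k
          by_cases hk : k = i
          · subst hk; simp; omega
          · simp [hk]
        refine ⟨(z - Pi.single i 1, some i), ?_, by simp [← hz2]⟩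
        simp only [Finset.mem_product, Finset.mem_univ, and_true]
        apply h2
        have h3 : ∑ j, z j = ∑ j, (z - Pi.single i 1 : Fin n → ℕ) j + 1 := by
          conv_lhs => rw [hz2]
          simp only [Pi.add_apply]
          rw [Finset.sum_add_distrib]
          simp
        omega

end Pool.Agent.X235.Soc
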