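import Pool.Agent.X235.Soc.Core

set_option autoImplicit false

/-!
The dual bound for one second-order cone inequality.
-/

namespace Pool.Agent.X235.Soc

open scoped RealInnerProductSpace

variable {n : ℕ} {E : Type} [NormedAddCommGroup E] [InnerProductSpace ℝ E]

/-- The function `‖V a x‖ + b·x`. -/
noncomputable def ff (a : Fin n → E) (b : Fin n → ℝ) (x : Fin n → ℕ) : ℝ :=
  ‖V a x‖ + ∑ j, b j * (x j : ℝ)

/-- The increment of `ff` at `y` in direction `j`. -/
noncomputable def gg (a : Fin n → E) (b : Fin n → ℝ) (y : Fin n → ℕ) (j : Fin n) : ℝ :=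
  b j + ‖V a y + a j‖ - ‖V a y‖

theorem lin_add (b : Fin n → ℝ) (x y : Fin n → ℕ) :
    ∑ j, b j * (((x + y) j : ℕ) : ℝ) = ∑ j, b j * (x j : ℝ) + ∑ j, b j * (y j : ℝ) := by
  rw [← Finset.sum_add_distrib]
  refine Finset.sum_congr rfl fun j _ => ?_
  rw [Pi.add_apply, Nat.cast_add, mul_add]

theorem lin_single (b : Fin n → ℝ) (i : Fin n) :
    ∑ j, b j * (((Pi.single i 1 : Fin n → ℕ) j : ℕ) : ℝ) = b i := by
  rw [Finset.sum_eq_single i]
  · simp
  · intro j _ hj; simp [hj]
  · intro h; exact absurd (Finset.mem_univ _) h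

theorem ff_add_single (a : Fin n → E) (b : Fin n → ℝ) (w : Fin n → ℕ) (i : Fin n) :
    ff a b (w + Pi.single i 1) = ‖V a w + a i‖ + ∑ j, b j * (w j : ℝ) + b i := by
  rw [ff, V_add, V_single, lin_add, lin_single]; ring

theorem sub_add_single {x : Fin n → ℕ} {i : Fin n} (h : 1 ≤ x i) :
    (x - Pi.single i 1) + Pi.single i 1 = x := by
  funext k
  by_cases hk : k = i
  · subst hk; simp; omega
  · simp [hk]

theorem ff_mono {a : Fin n → E} (ha : ∀ j k, 0 ≤ ⟪a j, a k⟫) {b : Fin n → ℝ} (hb : ∀ j, 0 ≤ b j)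
    {x y : Fin n → ℕ} (h : x ≤ y) : ff a b x ≤ ff a b y := by
  unfold ff
  refine add_le_add (norm_le_of_le ha h) (Finset.sum_le_sum fun j _ => ?_)
  exact mul_le_mul_of_nonneg_left (Nat.cast_le.2 (h j)) (hb j)

open Classical in
/-- The decoding of an infeasible vector from its code. -/
noncomputable def dec (a : Fin n → E) (b : Fin n → ℝ)
    (p : ((Fin n → ℕ) × Fin n) × (Option (Fin n) × (Fin n → ℕ))) (j : Fin n) : ℕ :=
  if j = p.1.2 then p.1.1 j + 1
  else if ∃ k, p.2.1 = some k ∧ gg a b p.1.1 j ≤ gg a b p.1.1 k then 0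
  else p.1.1 j - p.2.2 j

theorem main {a : Fin n → E} (ha : ∀ j k, 0 ≤ ⟪a j, a k⟫) {b : Fin n → ℝ} (hb : ∀ j, 0 ≤ b j)
    (t : ℝ) (Y : Finset (Fin n → ℕ)) (hY : ∀ y ∈ Y, ff a b y ≤ t) :
    ∃ T : Finset (Fin n → ℕ), T.card ≤ Y.card * n * (n + 1) ^ 120 ∧
      ∀ x : Fin n → ℕ, x ≠ 0 → t < ff a b x → (∀ y ∈ Y, ¬ x ≤ y) →
        (∀ i, 1 ≤ x i → ∃ y ∈ Y, x - Pi.single i 1 ≤ y) → x ∈ T := by
  classical
  obtain ⟨S, hS1, hS2⟩ := card_small n 119
  refine ⟨((Y ×ˢ (Finset.univ : Finset (Fin n))) ×ˢ
    ((Finset.univ : Finset (Option (Fin n))) ×ˢ S)).image (dec a b), ?_, ?_⟩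
  · refine Finset.card_image_le.trans ?_
    rw [Finset.card_product, Finset.card_product, Finset.card_product, Finset.card_univ,
      Finset.card_univ, Fintype.card_option, Fintype.card_fin]
    calc Y.card * n * ((n + 1) * S.card) ≤ Y.card * n * ((n + 1) * (n + 1) ^ 119) := by gcongr
      _ = Y.card * n * (n + 1) ^ 120 := by ring
  · intro x hx0 hxt hxY hxmin
    -- the index of the smallest decrement
    have hne : ((Finset.univ : Finset (Fin n)).filter fun i => 1 ≤ x i).Nonempty := by
      by_contra hcon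
      rw [Finset.not_nonempty_iff_eq_empty, Finset.filter_eq_empty_iff] at hcon
      apply hx0
      funext i
      have := hcon (Finset.mem_univ i)
      simp only [Pi.zero_apply]
      omega
    obtain ⟨i, hi, himin⟩ := Finset.exists_min_image _
      (fun i => ff a b x - ff a b (x - Pi.single i 1)) hne
    rw [Finset.mem_filter] at hi
    have hi := hi.2
    obtain ⟨y, hy, hwy⟩ := hxmin i hi
    set w : Fin n → ℕ := x - Pi.single i 1 with hw
    have hxw : w + Pi.single i 1 = x := sub_add_single hi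
    obtain ⟨z, hz⟩ := exists_add_of_le hwy
    have hwj : ∀ j, j ≠ i → w j = x j := by
      intro j hj; simp [hw, hj]
    have hwi : w i + 1 = x i := by rw [← hxw]; simp
    have hyi : y i = w i := by
      by_contra hcon
      apply hxY y hy
      intro k
      by_cases hk : k = i
      · have h' : w i ≤ y i := hwy i
        rw [hk]
        show x i ≤ y i
        omega
      · rw [← hwj k hk]; exact hwy k
    have hzi : z i = 0 := by
      have := congrFun hz i
      rw [Pi.add_apply] at this
      omega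
    set γ := ff a b x - ff a b w with hγ
    have hyt := hY y hy
    have hfwy : ff a b w ≤ ff a b y := ff_mono ha hb hwy
    have hγ0 : 0 < γ := by linarith
    have hγe : γ = b i + ‖V a w + a i‖ - ‖V a w‖ := by
      rw [hγ]
      conv_lhs => rw [← hxw]
      rw [ff_add_single, ff]; ring
    have hlin : ∑ j, b j * (w j : ℝ) ≤ ∑ j, b j * (y j : ℝ) :=
      Finset.sum_le_sum fun j _ => mul_le_mul_of_nonneg_left (Nat.cast_le.2 (hwy j)) (hb j)
    have hVx : V a x = V a w + a i := by rw [← hxw, V_add, V_single]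
    -- (A)
    have hA : ∀ j, j ≠ i → gg a b y j < γ / 40 → x j = 0 := by
      intro j hj hg
      by_contra hcon
      have hxj : 1 ≤ x j := Nat.one_le_iff_ne_zero.2 hcon
      have hwj1 : 1 ≤ w j := by rw [hwj j hj]; exact hxj
      apply absurd hg
      rw [not_lt]
      unfold gg
      refine ineqA (W := V a w) (ai := a i) (aj := a j) (Y := V a y) (bi := b i)
        (inner_V_nonneg ha _ _) (hb i) (hb j) hγ0 (le_inner ha w j hwj1) ?_ hγe ?_ ?_ ?_
      · rw [hz, V_add, inner_add_left]
        linarith [inner_V_nonneg ha z j]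
      · have h1 := himin j (by rw [Finset.mem_filter]; exact ⟨Finset.mem_univ _, hxj⟩)
        have h2 : x - Pi.single j 1 + Pi.single j 1 = x := sub_add_single hxj
        have h3 : V a x = V a (x - Pi.single j 1) + a j := by
          conv_lhs => rw [← h2]
          rw [V_add, V_single]
        have h4 : ff a b x = ‖V a x‖ + ∑ k, b k * (((x - Pi.single j 1 : Fin n → ℕ) k : ℕ) : ℝ)
            + b j := by
          conv_lhs => rw [← h2]
          rw [ff_add_single, h3]
        have h5 : ff a b (x - Pi.single j 1) = ‖V a w + a i - a j‖ +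
            ∑ k, b k * (((x - Pi.single j 1 : Fin n → ℕ) k : ℕ) : ℝ) := by
          rw [ff, ← hVx, h3, add_sub_cancel_right]
        rw [← hVx]
        rw [← hVx] at h5
        have h6 : γ ≤ ff a b x - ff a b (x - Pi.single j 1) := h1
        rw [h4, h5] at h6
        linarith
      · have : ff a b y - ff a b w < γ := by linarith
        rw [ff, ff] at this
        linarith
      · rw [← hVx]; exact norm_a_le ha x j hxj
    -- (B)
    have hB : ∑ j, (z j : ℝ) * gg a b y j < 3 * γ := by
      have h1 := ineqB ha w z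
      rw [← hz] at h1
      have h2 : ∑ j, (z j : ℝ) * gg a b y j = ∑ j, b j * (z j : ℝ) +
          ∑ j, (z j : ℝ) * (‖V a y + a j‖ - ‖V a y‖) := by
        rw [← Finset.sum_add_distrib]
        refine Finset.sum_congr rfl fun j _ => ?_
        unfold gg; ring
      have h3 : 0 ≤ ∑ j, b j * (z j : ℝ) :=
        Finset.sum_nonneg fun j _ => mul_nonneg (hb j) (Nat.cast_nonneg _)
      have h4 : ff a b y - ff a b w < γ := by linarith
      have h5 : ff a b y - ff a b w = ‖V a y‖ - ‖V a w‖ + ∑ j, b j * (z j : ℝ) := by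
        rw [ff, ff]
        have := lin_add b w z
        rw [← hz] at this
        rw [this]; ring
      rw [h2]
      linarith
    have hg0 : ∀ j, 0 ≤ gg a b y j := by
      intro j
      have h1 : ‖V a y‖ ≤ ‖V a (y + Pi.single j 1)‖ := norm_le ha _ _
      rw [V_add, V_single] at h1
      have := hb j
      unfold gg
      linarith
    let L : Finset (Fin n) := Finset.univ.filter fun j => j ≠ i ∧ gg a b y j < γ / 40
    have hL : ∃ κ : Option (Fin n), ∀ j, j ≠ i →
        ((∃ k, κ = some k ∧ gg a b y j ≤ gg a b y k) ↔ gg a b y j < γ / 40) := by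
      by_cases hLe : L.Nonempty
      · obtain ⟨k, hk, hkmax⟩ := Finset.exists_max_image L (fun j => gg a b y j) hLe
        rw [Finset.mem_filter] at hk
        refine ⟨some k, fun j hj => ⟨?_, fun h => ⟨k, rfl, hkmax j ?_⟩⟩⟩
        · rintro ⟨k', h1, h2⟩
          rw [Option.some.injEq] at h1
          subst h1
          exact lt_of_le_of_lt h2 hk.2.2
        · rw [Finset.mem_filter]; exact ⟨Finset.mem_univ _, hj, h⟩
      · refine ⟨none, fun j hj => ⟨?_, fun h => ?_⟩⟩
        · rintro ⟨k, h1, -⟩; exact absurd h1 (by simp)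
        · exact absurd ⟨j, by rw [Finset.mem_filter]; exact ⟨Finset.mem_univ _, hj, h⟩⟩ hLe
    obtain ⟨κ, hκ⟩ := hL
    let ζ : Fin n → ℕ := fun j => if gg a b y j < γ / 40 then 0 else z j
    have hζ : ∑ j, ζ j ≤ 119 := by
      have h1 : (∑ j, (ζ j : ℝ)) * (γ / 40) ≤ ∑ j, (z j : ℝ) * gg a b y j := by
        rw [Finset.sum_mul]
        refine Finset.sum_le_sum fun j _ => ?_
        simp only [ζ]
        split_ifs with h
        · simp only [Nat.cast_zero, zero_mul]
          exact mul_nonneg (Nat.cast_nonneg _) (hg0 j)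
        · exact mul_le_mul_of_nonneg_left (not_lt.1 h) (Nat.cast_nonneg _)
      have h2 : (∑ j, (ζ j : ℝ)) < 120 := by
        by_contra hcon
        push Not at hcon
        have : 120 * (γ / 40) ≤ (∑ j, (ζ j : ℝ)) * (γ / 40) :=
          mul_le_mul_of_nonneg_right hcon (by linarith)
        linarith
      have h3 : ((∑ j, ζ j : ℕ) : ℝ) < ((120 : ℕ) : ℝ) := by
        rw [Nat.cast_sum]; exact_mod_cast h2
      have h4 := Nat.cast_lt.1 h3
      omega
    rw [Finset.mem_image]
    refine ⟨((y, i), (κ, ζ)), ?_, ?_⟩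
    · simp only [Finset.mem_product, Finset.mem_univ, and_true, true_and]
      exact ⟨hy, hS2 ζ hζ⟩
    · funext j
      unfold dec
      dsimp only
      by_cases hj : j = i
      · rw [if_pos hj, hj, hyi, hwi]
      · rw [if_neg hj]
        by_cases hg : gg a b y j < γ / 40
        · rw [if_pos ((hκ j hj).2 hg), hA j hj hg]
        · rw [if_neg (fun h => hg ((hκ j hj).1 h))]
          simp only [ζ, if_neg hg]
          have h1 := congrFun hz j
          rw [Pi.add_apply] at h1
          rw [h1, hwj j hj]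
          omega

end Pool.Agent.X235.Soc
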